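import Pool.Agent.Q219.TTO.Fin

/-!
# Adding a zero summand to a truncated Toeplitz operator

Some operator `T` on a space of dimension `2`, `3` or `4` is unitarily equivalent to a truncated
Toeplitz operator while `T ⊕ 0` (the zero operator on one more dimension) is not. Otherwise one
could, after adding scalars, append any eigenvalues to the `2 × 2` nilpotent matrix `E`, and
`E ⊕ diag(1, -1, i)` is not a truncated Toeplitz operator: a displacement equation
`[S, Z] = a ∧ w` with a common cyclic vector `w` for `S` and its adjoint is impossible.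
-/

set_option autoImplicit false

namespace Pool.Agent.Results.MP_3d2409_an.NotClosedUnderZero

open MeasureTheory Complex

/-- The inner product of `L²` of the unit circle with normalised arc length. -/
noncomputable def inner2 (f g : ℂ → ℂ) : ℂ :=
  (1 / (2 * (Real.pi : ℂ))) * ∫ t in (0 : ℝ)..(2 * Real.pi),
    f (exp ((t : ℂ) * I)) * star (g (exp ((t : ℂ) * I)))

/-- `φ` is a square integrable symbol on the unit circle. -/
def IsSymbol (φ : ℂ → ℂ) : Prop :=
  MemLp (fun t : ℝ => φ (exp ((t : ℂ) * I))) 2 (volume.restrict (Set.Ioc 0 (2 * Real.pi)))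

variable {ι : Type} [Fintype ι]

/-- The model space `H² ⊖ Θ H²` of the finite Blaschke product `Θ` with the zeros `a j`: the
functions `p / ∏ (1 - conj (a j) z)` with `p` a polynomial of degree less than the number of
zeros. -/
def modelSpace (a : ι → ℂ) : Set (ℂ → ℂ) :=
  {f | ∃ p : Polynomial ℂ, p.degree < (Fintype.card ι : ℕ) ∧
    f = fun z => p.eval z / ∏ j, (1 - star (a j) * z)}

/-- The matrix of the truncated Toeplitz operator `f ↦ P_Θ (φ f)` in the orthonormal basis `e` of
the model space: its entries are `⟨A e_j, e_i⟩ = ⟨φ e_j, e_i⟩`. -/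
noncomputable def ttoMatrix (φ : ℂ → ℂ) (e : ι → ℂ → ℂ) : Matrix ι ι ℂ :=
  Matrix.of fun i j => inner2 (fun z => φ z * e j z) (e i)

/-- The operator on `ℂ^ι` with matrix `M` is unitarily equivalent to a truncated Toeplitz operator:
`M` is the matrix of the truncated Toeplitz operator with some square integrable symbol in some
orthonormal basis of the model space of some finite Blaschke product. -/
def UnitarilyEquivalentToTTO [DecidableEq ι] (M : Matrix ι ι ℂ) : Prop :=
  ∃ (a : ι → ℂ) (φ : ℂ → ℂ) (e : ι → ℂ → ℂ), (∀ j, ‖a j‖ < 1) ∧ IsSymbol φ ∧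
    (∀ j, e j ∈ modelSpace a) ∧ (∀ i j, inner2 (e j) (e i) = if i = j then 1 else 0) ∧
    ttoMatrix φ e = M

/-- The matrix of `T ⊕ 0`, with `T` the operator with matrix `M` and `0` the zero operator on a
line. -/
def plusZero {n : ℕ} (M : Matrix (Fin n) (Fin n) ℂ) :
    Matrix (Fin n ⊕ Fin 1) (Fin n ⊕ Fin 1) ℂ :=
  Matrix.fromBlocks M 0 0 0

/-- **Theorem.** For some `n` with `2 ≤ n ≤ 4` there is an operator `T` on `ℂⁿ` which is unitarily
equivalent to a truncated Toeplitz operator, such that `T ⊕ 0` on `ℂⁿ ⊕ ℂ` is not unitarily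
equivalent to any truncated Toeplitz operator. -/
theorem result : ∃ n : ℕ, 2 ≤ n ∧ n ≤ 4 ∧ ∃ M : Matrix (Fin n) (Fin n) ℂ,
    UnitarilyEquivalentToTTO M ∧ ¬ UnitarilyEquivalentToTTO (plusZero M) :=
  Q219.TTO.main

end Pool.Agent.Results.MP_3d2409_an.NotClosedUnderZero
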